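import Pool.Agent.H547U1.Stm
import Pool.Agent.H547S1.Asm
import Pool.Agent.H547S1.T_GL3
import Pool.Agent.H547S1.T_C5

/-!
# Assembly
-/

set_option autoImplicit false

namespace Pool.Agent.H547U1

open Pool.Agent.H547R6 Pool.Agent.H547R7 Pool.Agent.H547R8 Pool.Agent.NPC Pool.Agent.H547S1
open Pool.Agent.H583R2 Pool.Agent.H545R2.KS

theorem cls_cases (κ : Fin 3) (P : Set BFun → Prop) (h1 : P Aff) (h2 : P Conj) (h3 : P Disj) :
    P (cls κ) := by
  unfold cls
  split_ifs <;> assumption

theorem cls_gl3 (κ : Fin 3) : cls κ = Aff ∨ cls κ = Conj ∨ cls κ = Disj ∨ cls κ = SelfDual ∨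
    cls κ = Mon :=
  cls_cases κ (fun K => K = Aff ∨ K = Conj ∨ K = Disj ∨ K = SelfDual ∨ K = Mon)
    (Or.inl rfl) (Or.inr (Or.inl rfl)) (Or.inr (Or.inr (Or.inl rfl)))

theorem sp_easy (h1 : U_EVC) (h2 : U_EVP) (B : Set BFun) (κ : Fin 3) (hB : B ⊆ cls κ) :
    EXPSPACEover B ⊆ EXP := by
  rintro L ⟨F, s, p, e, q, hF, hs, h⟩
  obtain ⟨V, hV, hVX⟩ := h2 κ F s e hF hs
  refine ⟨V, p, hV, fun x => ?_⟩
  obtain ⟨hc, hx⟩ := h x
  have h3 := h1 κ F s (pad p x) (e.eval (pad p x).length) (pad p x).length
    (fun j => t_GL3 B (cls κ) (cls_gl3 κ) hB _ _ _ (hc j))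
  rw [hx, hVX]
  unfold SpAcc
  rw [← h3]
  simp

theorem sp_sub (B : Set BFun) : EXPSPACEover B ⊆ EXPSPACE := by
  rintro L ⟨F, s, p, e, q, hF, hs, h⟩
  exact ⟨F, s, p, e, hF, hs, fun x => (h x).2⟩

theorem ofFn_vec (m : ℕ) (l : List Bool) (hl : l.length = m) : List.ofFn (vec m l) = l := by
  apply List.ext_getElem
  · rw [List.length_ofFn, hl]
  · intro i h1 h2
    rw [List.getElem_ofFn]
    unfold vec
    rw [List.getD_eq_getElem _ _ h2]

theorem ofFn_vec_fit (m : ℕ) (l : List Bool) : List.ofFn (vec m l) = fit m l := by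
  change (List.ofFn fun i : Fin m => l.getD i.val false) = (l ++ List.replicate m false).take m
  apply List.ext_getElem
  · simp
  · intro i h1 h2
    rw [List.getElem_ofFn, List.getElem_take]
    by_cases h : i < l.length
    · rw [List.getD_eq_getElem _ _ h, List.getElem_append_left h]
    · rw [List.getD_eq_default _ _ (Nat.le_of_not_lt h),
        List.getElem_append_right (Nat.le_of_not_lt h)]
      simp

theorem len_emb (a : List Bool) : (embL a).length = 2 * a.length + 2 := by
  unfold embL cpl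
  simp
  ring

theorem sp_hard (h1 : U_HP) (h2 : U_HC) (h3 : U_HI) (B : Set BFun) (hA : ¬ B ⊆ Aff)
    (hC : ¬ B ⊆ Conj) (hD : ¬ B ⊆ Disj) : EXPSPACE ⊆ EXPSPACEover B := by
  rintro L ⟨F, s, p, e, hF, hs, h⟩
  obtain ⟨τ, hτ⟩ := t_C5 B hA hC hD
  obtain ⟨F', s', hF', hs', e1, e2⟩ := h1 τ F s e hF hs
  obtain ⟨q, hq⟩ := h2 B τ F e hτ hF
  refine ⟨F', s', p, 2 * e + 3, q, hF', hs', fun x => ?_⟩
  generalize hX : pad p x = X
  have hl : len (2 * e + 3) X = 2 * len e X + 2 := by
    simp only [len, Polynomial.eval_add, Polynomial.eval_mul, Polynomial.eval_ofNat]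
    ring
  have key1 : ∀ m', m' = 2 * len e X + 2 → ∀ j : Fin m', Computes B m' (q.eval X.length)
      fun a => step F' X m' a j := by
    rintro _ rfl j
    have h4 := hq X j j.2
    have e3 : (fun a : Fin (2 * len e X + 2) → Bool => step F' X (2 * len e X + 2) a j) =
        fun β => (stL τ F X (len e X) (List.ofFn β)).getD j false := by
      funext a
      unfold step
      rw [e1]
    rw [e3]
    exact h4
  have key2 : ∀ m', m' = 2 * len e X + 2 → ∀ t,
      List.ofFn ((step F' X m')^[t] (vec m' (s' X))) =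
        embL (List.ofFn ((step F X (len e X))^[t] (vec (len e X) (s X)))) := by
    rintro _ rfl t
    rw [e2, ← ofFn_vec_fit, h3 τ F F' X (len e X) (fun β => e1 X β) t]
    apply ofFn_vec
    rw [len_emb, List.length_ofFn]
  refine ⟨key1 _ hl, ?_⟩
  rw [h x, hX]
  unfold SpAcc
  have h5 : ∀ (k : ℕ) (f : Fin (k + 1) → Bool), f 0 = (List.ofFn f).getD 0 false := by
    intro k f
    rw [List.ofFn_succ]
    rfl
  have e4 : ((step F' X (len (2 * e + 3) X))^[2 ^ X.length]
      (vec (len (2 * e + 3) X) (s' X))) 0 =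
      ((step F X (len e X))^[2 ^ X.length] (vec (len e X) (s X))) 0 := by
    refine (h5 _ _).trans ?_
    rw [key2 _ hl (2 ^ X.length)]
    unfold embL
    rw [List.ofFn_succ]
    rfl
  rw [e4]

theorem ne_hard (h1 : U_HN) (h2 : U_HQ) (B : Set BFun) (hM : ¬ B ⊆ Mon) (hA : ¬ B ⊆ Aff) :
    NEXP ⊆ NEXPover B := by
  rintro L ⟨V, p, e, hV, h⟩
  obtain ⟨τ, hτ⟩ := gt_of hM hA
  obtain ⟨V', hV', e1⟩ := h2 τ V e hV
  obtain ⟨q, hq⟩ := h1 B τ V e hτ hV
  refine ⟨V', fun _ => [false, true], p, e + 1, q, hV', polyTime_of_pf (PF.const _), fun x => ?_⟩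
  rw [h x]
  generalize pad p x = X
  have hacc : ∀ n, acc V' X n = fun r => prL τ V X (len e X) (List.ofFn r) := by
    intro n
    funext r
    unfold acc
    rw [e1]
    cases prL τ V X (len e X) (List.ofFn r) <;> simp
  refine ⟨by rw [hacc]; exact hq X, ?_⟩
  rw [hacc]
  have hl : len (e + 1) X = len e X + 1 := by
    simp only [len, Polynomial.eval_add, Polynomial.eval_one]
  have key : ∀ m', m' = len e X + 1 → ((∃ y, acc V X (len e X) y = true) ↔
      ∃ y' : Fin m' → Bool, prL τ V X (len e X)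
        (List.ofFn (Fin.append (vec m' [false, true]) y')) = true) := by
    rintro _ rfl
    have h6 : ∀ y' : Fin (len e X + 1) → Bool, prL τ V X (len e X)
        (List.ofFn (Fin.append (vec (len e X + 1) [false, true]) y')) =
        acc V X (len e X) (fun i => y' i.castSucc) := by
      intro y'
      have h7 : List.ofFn (Fin.append (vec (len e X + 1) [false, true]) y') =
          List.ofFn (vec (len e X + 1) [false, true]) ++ List.ofFn y' := by
        rw [List.ofFn_fin_append]
      have h8 : (List.ofFn (vec (len e X + 1) [false, true])).length = len e X + 1 := by simp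
      unfold prL acc
      rw [h7, List.drop_append_of_le_length (by rw [h8]), List.drop_of_length_le (by rw [h8]),
        List.nil_append]
      have h9 : (List.ofFn y').take (len e X) = List.ofFn fun i : Fin (len e X) =>
          y' i.castSucc := by
        apply List.ext_getElem
        · simp
        · intro i h1 h2
          simp only [List.getElem_take, List.getElem_ofFn]
          rfl
      rw [h9]
      have h10 : (List.ofFn (vec (len e X + 1) [false, true]) ++ List.ofFn y').getD 0 false =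
          false := by
        rw [List.getD_append _ _ _ _ (by rw [h8]; exact Nat.succ_pos _), ofFn_vec_fit]
        simp [fit]
      have h11 : (List.ofFn (vec (len e X + 1) [false, true]) ++ List.ofFn y').getD 1 false =
          true := by
        rw [List.getD_append _ _ _ _ (by rw [h8]; exact Nat.succ_lt_succ (Nat.succ_pos _)),
          ofFn_vec_fit]
        simp [fit]
      rw [h10, h11]
      unfold Tf
      split_ifs <;> simp_all
    constructor
    · rintro ⟨y, hy⟩
      refine ⟨Fin.snoc (α := fun _ => Bool) y false, ?_⟩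
      rw [h6]
      convert hy using 2
      funext i
      simp
    · rintro ⟨y', hy'⟩
      rw [h6] at hy'
      exact ⟨_, hy'⟩
  exact key _ hl

end Pool.Agent.H547U1
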