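import Pool.Agent.H547U1.Stm

/-!
# EE: `EXP` is contained in all classes
-/

set_option autoImplicit false

namespace Pool.Agent.H547U1

open Pool.Agent.H547R6 Pool.Agent.H547R7 Pool.Agent.H547R8 Pool.Agent.NPC Pool.Agent.H547S1
open Pool.Agent.H583R2 Pool.Agent.H545R2.KS

/-- the answer of `V`, as a string -/
noncomputable def EE_s (V : List Bool → List Bool) (X : List Bool) : List Bool :=
  if (V X == [true]) = true then [true] else []

theorem EE_s_pt {V : List Bool → List Bool} (hV : PolyTime V) : PolyTime (EE_s V) := by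
  apply polyTime_of_pf
  unfold EE_s
  exact PF.ite (PF.beqStr (pf_of_polyTime hV) (PF.const [true])) (PF.const [true]) (PF.const [])

/-- the first bit of the second component -/
def EE_V (z : List Bool) : List Bool := [(spl z).2.getD 0 false]

theorem EE_V_pt : PolyTime EE_V := by
  apply polyTime_of_pf
  unfold EE_V
  exact PF.cons (PF.listGetD (PF.const 0) (PF.snd' (PF.spl PF.id)) (PF.const false)) (PF.const [])

/-- the second component -/
def EE_F (z : List Bool) : List Bool := (spl z).2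

theorem EE_F_pt : PolyTime EE_F := by
  apply polyTime_of_pf
  unfold EE_F
  exact PF.snd' (PF.spl PF.id)

theorem EE_getD {n : ℕ} (a : Fin n → Bool) (j : Fin n) : (List.ofFn a).getD j false = a j := by
  rw [List.getD_eq_getElem _ _ (by simp)]
  simp

theorem EE_acc (X : List Bool) (n : ℕ) (h : 0 < n) : acc EE_V X n = fun r => r ⟨0, h⟩ := by
  funext r
  have h1 : (List.ofFn r).getD 0 false = r ⟨0, h⟩ := EE_getD r ⟨0, h⟩
  unfold acc EE_V
  rw [spl_pairBits]
  simp only [h1]
  cases r ⟨0, h⟩ <;> simp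

theorem EE_step (X : List Bool) (m : ℕ) (a : Fin m → Bool) : step EE_F X m a = a := by
  funext j
  unfold step EE_F
  rw [spl_pairBits]
  exact EE_getD a j

theorem EE_comp (B : Set BFun) (n s : ℕ) (i : Fin n) : Computes B n s fun x => x i :=
  ⟨[], Gates.nil, Nat.zero_le _, Or.inr ⟨i, rfl⟩⟩

theorem EE_vec (V : List Bool → List Bool) (X : List Bool) (n : ℕ) (h : 0 < n) :
    vec n (EE_s V X) ⟨0, h⟩ = true ↔ V X = [true] := by
  unfold vec EE_s
  by_cases hX : V X = [true]
  · simp [hX]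
  · simp [hX]

theorem EE_pos (e : Polynomial ℕ) (X : List Bool) : 0 < len e X := Nat.succ_pos _

theorem EE_pos2 (e : Polynomial ℕ) (X : List Bool) : 0 < len e X + len e X :=
  Nat.add_pos_left (EE_pos e X) _

theorem EE_app (V : List Bool → List Bool) (X : List Bool) (n : ℕ) (h : 0 < n) (h' : 0 < n + n)
    (y : Fin n → Bool) : Fin.append (vec n (EE_s V X)) y ⟨0, h'⟩ = true ↔ V X = [true] := by
  have h0 : Fin.append (vec n (EE_s V X)) y ⟨0, h'⟩ = vec n (EE_s V X) ⟨0, h⟩ :=
    Fin.append_left _ _ ⟨0, h⟩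
  rw [h0]
  exact EE_vec _ _ _ _

theorem u_EE : U_EE := by
  intro B
  constructor
  · rintro L ⟨V, p, hV, hL⟩
    refine ⟨EE_V, EE_s V, p, 0, 0, EE_V_pt, EE_s_pt hV, fun x => ⟨?_, ?_⟩⟩
    · rw [EE_acc _ _ (EE_pos2 _ _)]
      exact EE_comp _ _ _ _
    · rw [hL x, EE_acc _ _ (EE_pos2 _ _)]
      constructor
      · intro h
        exact ⟨fun _ => false, (EE_app V _ _ (EE_pos _ _) _ _).2 h⟩
      · rintro ⟨y, hy⟩
        exact (EE_app V _ _ (EE_pos _ _) _ _).1 hy
  · rintro L ⟨V, p, hV, hL⟩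
    refine ⟨EE_F, EE_s V, p, 0, 0, EE_F_pt, EE_s_pt hV, fun x => ⟨fun j => ?_, ?_⟩⟩
    · simp only [EE_step]
      exact EE_comp _ _ _ _
    · rw [hL x]
      unfold SpAcc
      have h1 : step EE_F (pad p x) (len 0 (pad p x)) = id := funext fun a => EE_step _ _ a
      rw [h1, Function.iterate_id]
      exact (EE_vec _ _ _ _).symm

end Pool.Agent.H547U1
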