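import Pool.Agent.H547U1.Stm

/-!
# Correctness of repeated squaring (helper940)
-/

set_option autoImplicit false

namespace Pool.Agent.H547U1

open Pool.Agent.H547R6 Pool.Agent.H547R7 Pool.Agent.H547R8 Pool.Agent.NPC Pool.Agent.H547S1

/-- the base point and its neighbours -/
def EVC_ptv (κ : Fin 3) (M r : ℕ) : Fin M → Bool := fun i => xor (bs κ) (decide (i.val + 1 = r))

/-- maps all coordinates of which are in the class -/
def EVC_K (κ : Fin 3) {M : ℕ} (G : (Fin M → Bool) → Fin M → Bool) : Prop :=
  ∀ j, (⟨M, fun a => G a j⟩ : BFun) ∈ cls κ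

/-- `T` is the table of `G` -/
def EVC_T (κ : Fin 3) {M : ℕ} (G : (Fin M → Bool) → Fin M → Bool) (T : List (List Bool)) : Prop :=
  T.length = M + 1 ∧ ∀ r ≤ M, T.getD r [] = List.ofFn (G (EVC_ptv κ M r))

theorem EVC_fit (M : ℕ) (l : List Bool) : fit M l = List.ofFn (vec M l) := by
  apply List.ext_getElem
  · simp [fit]
  · intro i h1 h2
    simp only [fit, vec, List.getElem_take, List.getElem_ofFn]
    by_cases h : i < l.length
    · rw [List.getElem_append_left h, List.getD_eq_getElem _ _ h]
    · rw [List.getElem_append_right (by omega), List.getD_eq_default _ _ (by omega)]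
      simp

theorem EVC_getD {M : ℕ} (b : Fin M → Bool) (j : ℕ) (hj : j < M) :
    (List.ofFn b).getD j false = b ⟨j, hj⟩ := by
  rw [List.getD_eq_getElem _ _ (by simpa using hj)]
  simp

theorem EVC_op {κ : Fin 3} {M : ℕ} {f : (Fin M → Bool) → Bool} (hf : (⟨M, f⟩ : BFun) ∈ cls κ)
    (a : Fin M → Bool) (i : Fin M) (hi : xor (a i) (bs κ) = true) :
    f (fun t => if t.val < i.val + 1 then a t else bs κ) =
      op κ (f (fun t => if t.val < i.val then a t else bs κ))
        (f (EVC_ptv κ M (i.val + 1))) (f (EVC_ptv κ M 0)) := by
  fin_cases κ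
  · have hf' : (⟨M, f⟩ : BFun) ∈ Aff := by simpa [cls] using hf
    have h := hf' (fun t => if t.val < i.val then a t else false) (EVC_ptv 0 M (i.val + 1))
      (EVC_ptv 0 M 0)
    have hb : bs (0 : Fin 3) = false := by simp [bs]
    have h2 : (fun t : Fin M => xor (if t.val < i.val then a t else false)
        (xor (EVC_ptv 0 M (i.val + 1) t) (EVC_ptv 0 M 0 t))) =
        fun t => if t.val < i.val + 1 then a t else false := by
      funext t
      have hi' : a i = true := by simpa [hb] using hi
      rcases lt_trichotomy t.val i.val with ht | ht | ht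
      · have h3 : t.val < i.val + 1 := by omega
        have h5 : ¬ t.val = i.val := by omega
        simp [EVC_ptv, hb, ht, h3, h5]
      · have h3 : t = i := Fin.ext ht
        subst h3
        simp [EVC_ptv, hb, hi']
      · have h3 : ¬ t.val < i.val + 1 := by omega
        have h4 : ¬ t.val < i.val := by omega
        have h5 : ¬ t.val = i.val := by omega
        simp [EVC_ptv, hb, h3, h4, h5]
    have h3 : f (fun t => xor (if t.val < i.val then a t else false)
        (xor (EVC_ptv 0 M (i.val + 1) t) (EVC_ptv 0 M 0 t))) = _ := h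
    rw [h2] at h3
    simpa [op, hb] using h3
  · have hf' : (⟨M, f⟩ : BFun) ∈ Conj := by simpa [cls] using hf
    have h := hf' (fun t => if t.val < i.val then a t else true) (EVC_ptv 1 M (i.val + 1))
    have hb : bs (1 : Fin 3) = true := by simp [bs]
    have h2 : (fun t : Fin M => (if t.val < i.val then a t else true) &&
        (EVC_ptv 1 M (i.val + 1) t)) =
        fun t => if t.val < i.val + 1 then a t else true := by
      funext t
      have hi' : a i = false := by simpa [hb] using hi
      rcases lt_trichotomy t.val i.val with ht | ht | ht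
      · have h3 : t.val < i.val + 1 := by omega
        have h5 : ¬ t.val = i.val := by omega
        simp [EVC_ptv, hb, ht, h3, h5]
      · have h3 : t = i := Fin.ext ht
        subst h3
        simp [EVC_ptv, hb, hi']
      · have h3 : ¬ t.val < i.val + 1 := by omega
        have h4 : ¬ t.val < i.val := by omega
        have h5 : ¬ t.val = i.val := by omega
        simp [EVC_ptv, hb, h3, h4, h5]
    have h3 : f (fun t => (if t.val < i.val then a t else true) &&
        (EVC_ptv 1 M (i.val + 1) t)) = _ := h
    rw [h2] at h3
    simpa [op, hb] using h3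
  · have hf' : (⟨M, f⟩ : BFun) ∈ Disj := by simpa [cls] using hf
    have h := hf' (fun t => if t.val < i.val then a t else false) (EVC_ptv 2 M (i.val + 1))
    have hb : bs (2 : Fin 3) = false := by simp [bs]
    have h2 : (fun t : Fin M => (if t.val < i.val then a t else false) ||
        (EVC_ptv 2 M (i.val + 1) t)) =
        fun t => if t.val < i.val + 1 then a t else false := by
      funext t
      have hi' : a i = true := by simpa [hb] using hi
      rcases lt_trichotomy t.val i.val with ht | ht | ht
      · have h3 : t.val < i.val + 1 := by omega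
        have h5 : ¬ t.val = i.val := by omega
        simp [EVC_ptv, hb, ht, h3, h5]
      · have h3 : t = i := Fin.ext ht
        subst h3
        simp [EVC_ptv, hb, hi']
      · have h3 : ¬ t.val < i.val + 1 := by omega
        have h4 : ¬ t.val < i.val := by omega
        have h5 : ¬ t.val = i.val := by omega
        simp [EVC_ptv, hb, h3, h4, h5]
    have h3 : f (fun t => (if t.val < i.val then a t else false) ||
        (EVC_ptv 2 M (i.val + 1) t)) = _ := h
    rw [h2] at h3
    simpa [op, hb] using h3

/-- evaluation from the table -/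
theorem EVC_ev {κ : Fin 3} {M : ℕ} {G : (Fin M → Bool) → Fin M → Bool} {T : List (List Bool)}
    (hG : EVC_K κ G) (hT : EVC_T κ G T) (a : Fin M → Bool) :
    evL κ M T (List.ofFn a) = List.ofFn (G a) := by
  have key : ∀ i ≤ M, (List.range i).foldl (fun u i =>
      bif xor ((List.ofFn a).getD i false) (bs κ) then
      (List.range M).map fun j => op κ (u.getD j false) ((T.getD (i + 1) []).getD j false)
        ((T.getD 0 []).getD j false) else u) (T.getD 0 []) =
      List.ofFn (G (fun t => if t.val < i then a t else bs κ)) := by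
    intro i
    induction i with
    | zero =>
      intro _
      rw [List.range_zero, List.foldl_nil, hT.2 0 (Nat.zero_le _)]
      congr 2
      funext t
      simp [EVC_ptv]
    | succ i ih =>
      intro hi
      have hi' : i < M := hi
      rw [List.range_succ, List.foldl_append, ih (by omega), List.foldl_cons, List.foldl_nil,
        EVC_getD a i hi']
      by_cases hx : xor (a ⟨i, hi'⟩) (bs κ) = true
      · rw [hx, cond_true]
        apply List.ext_getElem
        · simp
        · intro j h1 h2
          have hj : j < M := by simpa using h1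
          simp only [List.getElem_map, List.getElem_range, List.getElem_ofFn]
          rw [EVC_getD _ j hj, hT.2 (i + 1) hi, EVC_getD _ j hj, hT.2 0 (Nat.zero_le _),
            EVC_getD _ j hj]
          exact (EVC_op (hG ⟨j, hj⟩) a ⟨i, hi'⟩ hx).symm
      · have hx' : xor (a ⟨i, hi'⟩) (bs κ) = false := by simpa using hx
        rw [hx', cond_false]
        congr 2
        funext t
        by_cases h1 : t.val < i
        · have h2 : t.val < i + 1 := by omega
          rw [if_pos h1, if_pos h2]
        · by_cases h2 : t.val < i + 1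
          · have h3 : t = ⟨i, hi'⟩ := Fin.ext (by show t.val = i; omega)
            rw [if_neg h1, if_pos h2, h3]
            revert hx'
            cases a ⟨i, hi'⟩ <;> cases bs κ <;> simp
          · rw [if_neg h1, if_neg h2]
  have h := key M le_rfl
  unfold evL
  rw [h]
  congr 2
  funext t
  rw [if_pos t.2]

theorem EVC_comp {κ : Fin 3} {M : ℕ} {G H : (Fin M → Bool) → Fin M → Bool}
    (hG : EVC_K κ G) (hH : EVC_K κ H) : EVC_K κ (fun a => G (H a)) := by
  intro j
  fin_cases κ
  · have hG' : ∀ j, (⟨M, fun a => G a j⟩ : BFun) ∈ Aff := fun j => by simpa [cls] using hG j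
    have hH' : ∀ j, (⟨M, fun a => H a j⟩ : BFun) ∈ Aff := fun j => by simpa [cls] using hH j
    have h : (⟨M, fun a => G (H a) j⟩ : BFun) ∈ Aff := by
      intro x y z
      have h1 : H (fun i => xor (x i) (xor (y i) (z i))) =
          fun i => xor (H x i) (xor (H y i) (H z i)) := funext fun i => hH' i x y z
      show G (H (fun i => xor (x i) (xor (y i) (z i)))) j = _
      rw [h1]
      exact hG' j (H x) (H y) (H z)
    simpa [cls] using h
  · have hG' : ∀ j, (⟨M, fun a => G a j⟩ : BFun) ∈ Conj := fun j => by simpa [cls] using hG j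
    have hH' : ∀ j, (⟨M, fun a => H a j⟩ : BFun) ∈ Conj := fun j => by simpa [cls] using hH j
    have h : (⟨M, fun a => G (H a) j⟩ : BFun) ∈ Conj := by
      intro x y
      have h1 : H (fun i => x i && y i) = fun i => H x i && H y i := funext fun i => hH' i x y
      show G (H (fun i => x i && y i)) j = _
      rw [h1]
      exact hG' j (H x) (H y)
    simpa [cls] using h
  · have hG' : ∀ j, (⟨M, fun a => G a j⟩ : BFun) ∈ Disj := fun j => by simpa [cls] using hG j
    have hH' : ∀ j, (⟨M, fun a => H a j⟩ : BFun) ∈ Disj := fun j => by simpa [cls] using hH j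
    have h : (⟨M, fun a => G (H a) j⟩ : BFun) ∈ Disj := by
      intro x y
      have h1 : H (fun i => x i || y i) = fun i => H x i || H y i := funext fun i => hH' i x y
      show G (H (fun i => x i || y i)) j = _
      rw [h1]
      exact hG' j (H x) (H y)
    simpa [cls] using h

theorem EVC_sq {κ : Fin 3} {M : ℕ} {G : (Fin M → Bool) → Fin M → Bool} {T : List (List Bool)}
    (hG : EVC_K κ G) (hT : EVC_T κ G T) : EVC_T κ (fun a => G (G a)) (sqL κ M T) := by
  refine ⟨by unfold sqL; rw [List.length_map]; exact hT.1, fun r hr => ?_⟩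
  have hr' : r < T.length := by rw [hT.1]; omega
  unfold sqL
  rw [List.getD_eq_getElem _ _ (by rw [List.length_map]; exact hr'), List.getElem_map]
  have h1 : T[r] = List.ofFn (G (EVC_ptv κ M r)) := by
    rw [← hT.2 r hr, List.getD_eq_getElem _ _ hr']
  rw [h1]
  exact EVC_ev hG hT _

theorem EVC_iter {κ : Fin 3} {M : ℕ} {G : (Fin M → Bool) → Fin M → Bool} {T : List (List Bool)}
    (hG : EVC_K κ G) (hT : EVC_T κ G T) (k : ℕ) :
    EVC_K κ (G^[2 ^ k]) ∧ EVC_T κ (G^[2 ^ k]) ((sqL κ M)^[k] T) := by
  induction k with
  | zero => exact ⟨by simpa using hG, by simpa using hT⟩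
  | succ k ih =>
    have h1 : (G^[2 ^ (k + 1)]) = fun a => (G^[2 ^ k]) ((G^[2 ^ k]) a) := by
      funext a
      rw [pow_succ, mul_two, Function.iterate_add, Function.comp_apply]
    rw [h1, Function.iterate_succ_apply']
    exact ⟨EVC_comp ih.1 ih.1, EVC_sq ih.1 ih.2⟩

theorem u_EVC : U_EVC := by
  intro κ F s X m k hcl
  have hK : EVC_K κ (step F X (m + 1)) := hcl
  have hT : EVC_T κ (step F X (m + 1)) (tabL κ F X (m + 1)) := by
    refine ⟨by simp [tabL], fun r hr => ?_⟩
    have hr' : r < ((List.range (m + 1 + 1)).map fun r =>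
        fit (m + 1) (F (pairBits X (pt κ (m + 1) r)))).length := by
      simp; omega
    unfold tabL
    rw [List.getD_eq_getElem _ _ hr', List.getElem_map, List.getElem_range, EVC_fit]
    have h1 : pt κ (m + 1) r = List.ofFn (EVC_ptv κ (m + 1) r) := by
      apply List.ext_getElem
      · simp [pt]
      · intro i h1 h2
        simp only [pt, List.getElem_map, List.getElem_range, List.getElem_ofFn, EVC_ptv]
    rw [h1]
    rfl
  have h := (EVC_iter hK hT k)
  unfold runL
  rw [EVC_fit, EVC_ev h.1 h.2, EVC_getD _ 0 (Nat.succ_pos m)]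
  rfl

end Pool.Agent.H547U1
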