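import Pool.Agent.H547U1.Stm

/-!
# Repeated squaring in polynomial time (helper205)
-/

set_option autoImplicit false

namespace Pool.Agent.H547U1

open Pool.Agent.H547R6 Pool.Agent.H547R7 Pool.Agent.H547R8 Pool.Agent.NPC Pool.Agent.H547S1
open Pool.Agent.H583R2 Pool.Agent.H545R2.KS

section pf

variable {α : Type} [H583R2.TEnc α]

theorem EVP_sz (l : List Bool) : H583R2.sz l ≤ 4 * l.length + 1 := by
  induction l with
  | nil => simp [H583R2.sz_nil]
  | cons x l ih =>
    have := H583R2.sz_bool x
    rw [H583R2.sz_cons, List.length_cons]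
    omega

theorem EVP_xor {b c : α → Bool} (hb : PF b) (hc : PF c) : PF (fun a => xor (b a) (c a)) :=
  (hb.beqBool hc).not.congr (fun a => by cases b a <;> cases c a <;> rfl)

theorem EVP_cond {β : Type} [H583R2.TEnc β] {b : α → Bool} {f g : α → β} (hb : PF b) (hf : PF f)
    (hg : PF g) : PF (fun a => bif b a then f a else g a) :=
  (hb.ite hf hg).congr (fun a => by cases b a <;> rfl)

theorem EVP_op (κ : Fin 3) {a t t₀ : α → Bool} (ha : PF a) (ht : PF t) (h0 : PF t₀) :
    PF (fun x => op κ (a x) (t x) (t₀ x)) := by
  unfold op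
  by_cases h1 : κ = 0
  · simp only [if_pos h1]
    exact EVP_xor ha (EVP_xor ht h0)
  · by_cases h2 : κ = 1
    · simp only [if_neg h1, if_pos h2]
      exact PF.and ha ht
    · simp only [if_neg h1, if_neg h2]
      exact PF.or ha ht

theorem EVP_ev (κ : Fin 3) {m : α → ℕ} {T : α → List (List Bool)} {x : α → List Bool}
    (hm : PF m) (hT : PF T) (hx : PF x) : PF (fun a => evL κ (m a) (T a) (x a)) := by
  unfold evL
  refine PF.foldlAdd (l := fun a => List.range (m a)) (s := fun a => (T a).getD 0 [])
    (f := fun a u i => bif xor ((x a).getD i false) (bs κ) then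
      (List.range (m a)).map (fun j => op κ (u.getD j false)
        (((T a).getD (i + 1) []).getD j false) (((T a).getD 0 []).getD j false)) else u)
    (PF.range hm) (PF.listGetD (PF.const 0) hT (PF.const [])) ?_
    (inc := fun _ => 0) (bnd := fun a => 4 * m a + 1) (PB.const 0) ?_ ?_
  · refine EVP_cond (EVP_xor (PF.listGetD (PF.snd.comp PF.snd) (hx.comp PF.fst) (PF.const false))
      (PF.const (bs κ))) ?_ (PF.fst.comp PF.snd)
    refine PF.map (l := fun p : α × List Bool × ℕ => List.range (m p.1))
      (f := fun p j => op κ (p.2.1.getD j false)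
        (((T p.1).getD (p.2.2 + 1) []).getD j false) (((T p.1).getD 0 []).getD j false))
      (PF.range (hm.comp PF.fst)) ?_
    refine EVP_op κ ?_ ?_ ?_
    · exact PF.listGetD PF.snd (PF.fst.comp (PF.snd.comp PF.fst)) (PF.const false)
    · exact PF.listGetD PF.snd (PF.listGetD (PF.succ (PF.snd.comp (PF.snd.comp PF.fst)))
        (hT.comp (PF.fst.comp PF.fst)) (PF.const [])) (PF.const false)
    · exact PF.listGetD PF.snd (PF.listGetD (PF.const 0)
        (hT.comp (PF.fst.comp PF.fst)) (PF.const [])) (PF.const false)
  · refine PB.mono (((PB.const 4).mul hm.size).add (PB.const 1)) fun a => ?_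
    have := H583R2.sz_nat (m a)
    omega
  · intro a i _ st
    have h1 := EVP_sz ((List.range (m a)).map (fun j => op κ (st.getD j false)
        (((T a).getD (i + 1) []).getD j false) (((T a).getD 0 []).getD j false)))
    rw [List.length_map, List.length_range] at h1
    cases xor ((x a).getD i false) (bs κ)
    · exact le_max_left _ _
    · exact h1.trans (le_max_right _ _)

theorem EVP_sq (κ : Fin 3) {m : α → ℕ} {T : α → List (List Bool)} (hm : PF m) (hT : PF T) :
    PF (fun a => sqL κ (m a) (T a)) := by
  unfold sqL
  exact PF.map (l := T) (f := fun a u => evL κ (m a) (T a) u) hT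
    (EVP_ev κ (hm.comp PF.fst) (hT.comp PF.fst) PF.snd)

end pf

/-- all rows have length `m` -/
theorem EVP_len_ev (κ : Fin 3) (m : ℕ) (T : List (List Bool)) (h0 : (T.getD 0 []).length = m)
    (a : List Bool) : (evL κ m T a).length = m := by
  unfold evL
  have key : ∀ (l : List ℕ) (u : List Bool), u.length = m → (l.foldl (fun u i =>
      bif xor (a.getD i false) (bs κ) then
      (List.range m).map fun j => op κ (u.getD j false) ((T.getD (i + 1) []).getD j false)
        ((T.getD 0 []).getD j false) else u) u).length = m := by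
    intro l
    induction l with
    | nil => intro u hu; exact hu
    | cons i l ih =>
      intro u hu
      rw [List.foldl_cons]
      apply ih
      cases xor (a.getD i false) (bs κ)
      · exact hu
      · simp
  exact key _ _ h0

theorem EVP_inv (κ : Fin 3) (m : ℕ) (T : List (List Bool)) (hT : T.length = m + 1)
    (hr : ∀ r ∈ T, r.length = m) (j : ℕ) :
    ((sqL κ m)^[j] T).length = m + 1 ∧ ∀ r ∈ (sqL κ m)^[j] T, r.length = m := by
  induction j with
  | zero => exact ⟨hT, hr⟩
  | succ j ih =>
    rw [Function.iterate_succ_apply']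
    obtain ⟨h1, h2⟩ := ih
    have h0 : (((sqL κ m)^[j] T).getD 0 []).length = m := by
      rw [List.getD_eq_getElem _ _ (by omega)]
      exact h2 _ (List.getElem_mem _)
    refine ⟨by unfold sqL; rw [List.length_map]; exact h1, ?_⟩
    intro r hr'
    unfold sqL at hr'
    rw [List.mem_map] at hr'
    obtain ⟨u, _, rfl⟩ := hr'
    exact EVP_len_ev κ m _ h0 u

theorem EVP_fit_length (m : ℕ) (l : List Bool) : (fit m l).length = m := by
  simp [fit]

theorem u_EVP : U_EVP := by
  intro κ F s e hF hs
  refine ⟨fun X => [runL κ F s X (len e X) X.length], ?_, fun X => rfl⟩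
  apply polyTime_of_pf
  have hm : PF (fun X : List Bool => len e X) := PF.succ (pf_eval (PF.length PF.id) e)
  have hpt : PF (fun p : List Bool × ℕ => pt κ (len e p.1) p.2) := by
    unfold pt
    refine PF.map (l := fun p : List Bool × ℕ => List.range (len e p.1))
      (f := fun p i => xor (bs κ) (decide (i + 1 = p.2))) (PF.range (hm.comp PF.fst)) ?_
    exact EVP_xor (PF.const (bs κ)) (PF.natEq (PF.succ PF.snd) (PF.snd.comp PF.fst))
  have hfit : ∀ {β : Type} [H583R2.TEnc β] {m : β → ℕ} {l : β → List Bool}, PF m → PF l →
      PF (fun a => fit (m a) (l a)) := by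
    intro β _ m l hm hl
    unfold fit
    exact PF.take hm (PF.append hl (PF.replicate hm (PF.const false)))
  have htab : PF (fun X : List Bool => tabL κ F X (len e X)) := by
    unfold tabL
    refine PF.map (l := fun X : List Bool => List.range (len e X + 1))
      (f := fun X r => fit (len e X) (F (pairBits X (pt κ (len e X) r)))) (PF.range (PF.succ hm)) ?_
    exact hfit (hm.comp PF.fst) ((pf_of_polyTime hF).comp (pf_pairBits PF.fst hpt))
  have hit : PF (fun X : List Bool => (sqL κ (len e X))^[X.length] (tabL κ F X (len e X))) := by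
    refine PF.iterate (n := fun X : List Bool => X.length) (s := fun X => tabL κ F X (len e X))
      (f := fun X T => sqL κ (len e X) T) (PF.length PF.id) htab
      (EVP_sq κ (hm.comp PF.fst) PF.snd)
      (b := fun X => (len e X + 1) * (4 * len e X + 1 + 1) + 1) ?_ ?_
    · refine PB.mono ((((hm.size).add (PB.const 1)).mul
        ((((PB.const 4).mul hm.size).add (PB.const 1)).add (PB.const 1))).add (PB.const 1))
        fun X => ?_
      have h1 := H583R2.sz_nat (len e X)
      have h2 : len e X ≤ H583R2.sz (len e X) := by omega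
      gcongr
    · intro X j _
      have h1 := EVP_inv κ (len e X) (tabL κ F X (len e X)) (by simp [tabL]) (by
        intro r hr
        unfold tabL at hr
        rw [List.mem_map] at hr
        obtain ⟨i, _, rfl⟩ := hr
        exact EVP_fit_length _ _) j
      have h2 := H583R2.sz_list_le ((sqL κ (len e X))^[j] (tabL κ F X (len e X))) (4 * len e X + 1)
        (fun r hr => by
          have h3 := EVP_sz r
          rwa [h1.2 r hr] at h3)
      rw [h1.1] at h2
      exact h2
  have hrun : PF (fun X : List Bool => runL κ F s X (len e X) X.length) := by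
    unfold runL
    exact PF.listGetD (PF.const 0) (EVP_ev κ hm hit (hfit hm (pf_of_polyTime hs))) (PF.const false)
  exact PF.cons hrun (PF.const [])

end Pool.Agent.H547U1
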