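import Pool.Agent.H547U1.Stm
import Pool.Agent.H547S1.T_GDM
import Pool.Agent.H547S1.T_CK3
import Pool.Agent.H547R8.T_CKT
import Pool.Agent.H547R8.T_LAY
import Pool.Agent.H547R8.T_DRC
import Pool.Agent.H547R9.T_REN

/-!
# Circuits for the simulation
-/

set_option autoImplicit false

namespace Pool.Agent.H547U1

open Pool.Agent.H547R6 Pool.Agent.H547R7 Pool.Agent.H547R8 Pool.Agent.NPC Pool.Agent.H547S1

theorem HC_mono {B : Set BFun} {n s s' : ℕ} {C : BF n} (h : Computes B n s C) (hs : s ≤ s') :
    Computes B n s' C := by
  obtain ⟨l, h1, h2, h3⟩ := h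
  exact ⟨l, h1, h2.trans hs, h3⟩

theorem HC_mono0 {n s s' : ℕ} {C : BF n} (h : Comp0 n s C) (hs : s ≤ s') : Comp0 n s' C := by
  obtain ⟨l, t, h1, h2, h3⟩ := h
  exact ⟨l, t, h1, h2.trans hs, h3⟩

theorem HC_not {n s : ℕ} {C : BF n} (h : Comp0 n s C) : Comp0 n s (fun x => !C x) := by
  obtain ⟨l, t, h1, h2, h3⟩ := h
  exact ⟨_, t, AON.not t l C h1 h3, h2, Or.inl List.mem_cons_self⟩

/-- bit `j` of the next configuration and its negation -/
def HC_C (F : List Bool → List Bool) (X : List Bool) (m j : ℕ) : BF m := fun a =>
  if j < m then (F (pairBits X (List.ofFn a))).getD j false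
  else !(F (pairBits X (List.ofFn a))).getD (j - m) false

theorem HC_fit_len (m : ℕ) (l : List Bool) : (fit m l).length = m := by
  unfold fit
  rw [List.length_take, List.length_append, List.length_replicate]
  omega

theorem HC_fit (m : ℕ) (l : List Bool) (j : ℕ) (hj : j < m) :
    (fit m l).getD j false = l.getD j false := by
  unfold fit
  have hlt : j < ((l ++ List.replicate m false).take m).length := by
    rw [List.length_take, List.length_append, List.length_replicate]
    omega
  rw [List.getD_eq_getElem _ _ hlt, List.getElem_take]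
  rcases Nat.lt_or_ge j l.length with h | h
  · rw [List.getElem_append_left h, List.getD_eq_getElem _ _ h]
  · rw [List.getElem_append_right h, List.getElem_replicate, List.getD_eq_default _ _ h]

theorem HC_fnd {m : ℕ} (u v : Fin m → Bool) (c : Bool) :
    fndL (List.ofFn u) (List.ofFn v) c = fnd u v c := by
  unfold fndL fnd
  have e : List.zip (List.ofFn u) (List.ofFn v) = List.ofFn fun i => (u i, v i) := by
    apply List.ext_getElem
    · simp
    · intro i h1 h2
      simp
  rw [e]

theorem HC_cpl {m : ℕ} (z : Fin m → Bool) : cpl (List.ofFn z) = List.ofFn fun i => !z i := by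
  unfold cpl
  rw [List.map_ofFn]
  rfl

theorem HC_len (F : List Bool → List Bool) (X : List Bool) (m : ℕ) (z : List Bool) :
    (frL F X m z).length = 2 * m := by
  unfold frL cpl
  rw [List.length_map, List.length_append, List.length_map, HC_fit_len]
  omega

theorem HC_fr (F : List Bool → List Bool) (X : List Bool) (m j : ℕ) (hj : j < 2 * m)
    (z : Fin (m + m) → Bool) :
    (frL F X m (List.ofFn z)).getD j false = FR m (HC_C F X m j) z := by
  have e1 : (List.ofFn z).take m = List.ofFn fun i : Fin m => z (Fin.castAdd m i) := by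
    apply List.ext_getElem
    · rw [List.length_take, List.length_ofFn, List.length_ofFn]
      omega
    · intro i h1 h2
      rw [List.getElem_take, List.getElem_ofFn, List.getElem_ofFn]
      rfl
  have e2 : ((List.ofFn z).drop m).take m = List.ofFn fun i : Fin m => z (Fin.natAdd m i) := by
    apply List.ext_getElem
    · rw [List.length_take, List.length_drop, List.length_ofFn, List.length_ofFn]
      omega
    · intro i h1 h2
      rw [List.getElem_take, List.getElem_drop, List.getElem_ofFn, List.getElem_ofFn]
      rfl
  have hfr : frL F X m (List.ofFn z) =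
      (fit m (F (pairBits X (List.ofFn fun i : Fin m => z (Fin.castAdd m i)))) ++
        cpl (fit m (F (pairBits X (List.ofFn fun i : Fin m => z (Fin.castAdd m i)))))).map
        (fnd (fun i : Fin m => z (Fin.castAdd m i)) (fun i : Fin m => z (Fin.natAdd m i))) := by
    unfold frL
    rw [e1, e2]
    congr 1
    funext c
    exact HC_fnd _ _ c
  have hl : ∀ l : List Bool, j < (fit m l ++ cpl (fit m l)).length := by
    intro l
    unfold cpl
    rw [List.length_append, List.length_map, HC_fit_len]
    omega
  rw [hfr, List.getD_eq_getElem _ _ (by rw [List.length_map]; exact hl _), List.getElem_map]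
  unfold FR
  congr 1
  rw [← List.getD_eq_getElem _ false (hl _)]
  unfold HC_C
  rcases Nat.lt_or_ge j m with h | h
  · rw [if_pos h, List.getD_append _ _ _ _ (by rw [HC_fit_len]; exact h), HC_fit _ _ _ h]
  · rw [if_neg (by omega), List.getD_append_right _ _ _ _ (by rw [HC_fit_len]; exact h),
      HC_fit_len]
    have h3 : ∀ l : List Bool, (cpl (fit m l)).getD (j - m) false = !(l.getD (j - m) false) := by
      intro l
      have h4 : j - m < (fit m l).length := by
        rw [HC_fit_len]
        omega
      have h5 : j - m < (cpl (fit m l)).length := by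
        unfold cpl
        rw [List.length_map]
        exact h4
      rw [List.getD_eq_getElem _ _ h5, ← HC_fit m l (j - m) (by omega),
        List.getD_eq_getElem _ _ h4]
      exact List.getElem_map _
    exact h3 _

theorem HC_st (τ : Fin 3) (F : List Bool → List Bool) (X : List Bool) (m j : ℕ) (hj : j < 2 * m)
    (β : Fin (2 * m + 2) → Bool) :
    (stL τ F X m (List.ofFn β)).getD j false =
      Tf τ (β ⟨2 * m, by omega⟩) (β ⟨2 * m + 1, by omega⟩)
        (FR m (HC_C F X m j) fun i => β ⟨i, by omega⟩)
        (FR m (HC_C F X m j) fun i => !β ⟨i, by omega⟩) := by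
  have e1 : (List.ofFn β).take (2 * m) =
      List.ofFn fun i : Fin (m + m) => β ⟨i, by omega⟩ := by
    apply List.ext_getElem
    · rw [List.length_take, List.length_ofFn, List.length_ofFn]
      omega
    · intro i h1 h2
      rw [List.getElem_take, List.getElem_ofFn, List.getElem_ofFn]
  have e2 : (List.ofFn β).getD (2 * m) false = β ⟨2 * m, by omega⟩ := by
    rw [List.getD_eq_getElem _ _ (by rw [List.length_ofFn]; omega), List.getElem_ofFn]
  have e3 : (List.ofFn β).getD (2 * m + 1) false = β ⟨2 * m + 1, by omega⟩ := by
    rw [List.getD_eq_getElem _ _ (by rw [List.length_ofFn]; omega), List.getElem_ofFn]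
  unfold stL
  rw [e1, e2, e3, HC_cpl]
  rw [List.getD_append _ _ _ _ (by rw [List.length_zipWith, HC_len, HC_len]; omega),
    List.getD_eq_getElem _ _ (by rw [List.length_zipWith, HC_len, HC_len]; omega),
    List.getElem_zipWith, ← List.getD_eq_getElem _ false, ← List.getD_eq_getElem _ false,
    HC_fr F X m j hj, HC_fr F X m j hj]

/-- the renaming of the inputs -/
def HC_s (m : ℕ) : Fin (m + m + 2) → Fin (2 * m + 2) :=
  Fin.cases ⟨2 * m, by omega⟩ (Fin.cases ⟨2 * m + 1, by omega⟩ fun i => ⟨i, by omega⟩)

theorem u_HC : U_HC := by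
  intro B τ F e hop hF
  obtain ⟨q, hq⟩ := t_CK3 (H547R8.t_CKT H547R8.t_LAY) F hF
  obtain ⟨c, hc⟩ := t_GDM B τ hop
  refine ⟨Polynomial.C c * (2 * q.comp (Polynomial.X + 3 * (e + 1)) + 4 * (e + 1) + 1),
    fun X j hj => ?_⟩
  have hm : 1 ≤ len e X := Nat.le_add_left _ _
  have hlen : len e X = e.eval X.length + 1 := rfl
  generalize hmdef : len e X = m at *
  rcases Nat.lt_or_ge j (2 * m) with hj2 | hj2
  · have a1 : Comp0 m (q.eval (X.length + 3 * m)) (HC_C F X m j) := by
      rcases Nat.lt_or_ge j m with h | h
      · have := hq X m j hm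
        have e1 : HC_C F X m j = fun r => (F (pairBits X (List.ofFn r))).getD j false := by
          funext a
          unfold HC_C
          rw [if_pos h]
        rw [e1]
        exact HC_mono0 this (H545R2.KS.eval_mono q (by omega))
      · have := HC_not (hq X m (j - m) hm)
        have e1 : HC_C F X m j =
            fun r => !(F (pairBits X (List.ofFn r))).getD (j - m) false := by
          funext a
          unfold HC_C
          rw [if_neg (by omega)]
        rw [e1]
        exact HC_mono0 this (H545R2.KS.eval_mono q (by omega))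
    have a2 := t_DRC m _ _ a1
    have a3 := hc _ _ _ a2
    have a4 := H547R9.REN_comp (HC_s m) a3
    have e2 : (fun β : Fin (2 * m + 2) → Bool => (stL τ F X m (List.ofFn β)).getD j false) =
        H547R9.REN_f (HC_s m) (fun y : Fin (m + m + 2) → Bool =>
          Tf τ (y 0) (y 1) (FR m (HC_C F X m j) fun i => y i.succ.succ)
            (FR m (HC_C F X m j) fun i => !y i.succ.succ)) := by
      funext β
      rw [HC_st τ F X m j hj2 β]
      rfl
    rw [e2]
    refine HC_mono a4 ?_
    simp only [Polynomial.eval_mul, Polynomial.eval_add, Polynomial.eval_C, Polynomial.eval_comp,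
      Polynomial.eval_X, Polynomial.eval_one, Polynomial.eval_ofNat, ← hlen]
    exact le_rfl
  · have hz : ∀ β : Fin (2 * m + 2) → Bool, (List.zipWith
        (Tf τ ((List.ofFn β).getD (2 * m) false) ((List.ofFn β).getD (2 * m + 1) false))
        (frL F X m ((List.ofFn β).take (2 * m)))
        (frL F X m (cpl ((List.ofFn β).take (2 * m))))).length = 2 * m := by
      intro β
      rw [List.length_zipWith, HC_len, HC_len, min_self]
    refine ⟨[], Gates.nil, Nat.zero_le _, Or.inr ⟨⟨j, hj⟩, ?_⟩⟩
    funext β
    unfold stL
    rw [List.getD_append_right _ _ _ _ (by rw [hz]; exact hj2), hz]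
    rcases (by omega : j = 2 * m ∨ j = 2 * m + 1) with h | h
    · subst h
      rw [Nat.sub_self, List.getD_cons_zero,
        List.getD_eq_getElem _ _ (by rw [List.length_ofFn]; omega), List.getElem_ofFn]
    · subst h
      have e4 : 2 * m + 1 - 2 * m = 1 := by omega
      rw [e4, List.getD_cons_succ, List.getD_cons_zero,
        List.getD_eq_getElem _ _ (by rw [List.length_ofFn]; omega), List.getElem_ofFn]

end Pool.Agent.H547U1
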