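import Pool.Agent.H547U1.Stm

/-!
# Correctness of the simulation (helper205)
-/

set_option autoImplicit false

namespace Pool.Agent.H547U1

open Pool.Agent.H547R6 Pool.Agent.H547R7 Pool.Agent.H547R8 Pool.Agent.NPC Pool.Agent.H547S1

theorem HI_length_fit (m : ℕ) (l : List Bool) : (fit m l).length = m := by
  simp [fit]

theorem HI_fit_eq (m : ℕ) (l : List Bool) :
    fit m l = List.ofFn (fun j : Fin m => l.getD (j : ℕ) false) := by
  apply List.ext_getElem
  · rw [HI_length_fit, List.length_ofFn]
  · intro i h1 h2
    rw [List.length_ofFn] at h2
    rw [List.getElem_ofFn]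
    simp only [fit, List.getElem_take]
    by_cases h : i < l.length
    · rw [List.getElem_append_left h, List.getD_eq_getElem _ _ h]
    · rw [List.getElem_append_right (by omega), List.getElem_replicate,
        List.getD_eq_default _ _ (by omega)]

theorem HI_fnd (A : List Bool) (c : Bool) : fndL A (cpl A) c = c := by
  have h : (List.zip A (cpl A)).filter (fun p => p.1 == p.2) = [] := by
    unfold cpl
    induction A with
    | nil => rfl
    | cons b A ih =>
      rw [List.map_cons, List.zip_cons_cons, List.filter_cons, ih]
      cases b <;> rfl
  unfold fndL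
  rw [h]
  rfl

theorem HI_Tf (τ : Fin 3) (c c' : Bool) : Tf τ false true c c' = c := by
  unfold Tf
  fin_cases τ <;> simp

theorem HI_zip (τ : Fin 3) (u v : List Bool) (h : u.length = v.length) :
    List.zipWith (Tf τ false true) u v = u := by
  induction u generalizing v with
  | nil => rfl
  | cons b u ih =>
    cases v with
    | nil => simp at h
    | cons c v =>
      rw [List.zipWith_cons_cons, HI_Tf, ih v (by simpa using h)]

theorem HI_length_cpl (l : List Bool) : (cpl l).length = l.length := by
  simp [cpl]

theorem HI_length_fr (F : List Bool → List Bool) (X : List Bool) (m : ℕ) (z : List Bool) :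
    (frL F X m z).length = m + m := by
  simp [frL, HI_length_fit, HI_length_cpl]

theorem HI_st (τ : Fin 3) (F : List Bool → List Bool) (X : List Bool) (m : ℕ) (A : List Bool)
    (hA : A.length = m) : stL τ F X m (embL A) = embL (fit m (F (pairBits X A))) := by
  have h1 : (embL A).take (2 * m) = A ++ cpl A := by
    unfold embL
    rw [← List.append_assoc]
    exact List.take_left' (by rw [List.length_append, HI_length_cpl]; omega)
  have h2 : (embL A).getD (2 * m) false = false := by
    unfold embL
    rw [← List.append_assoc, List.getD_eq_getElem?_getD, List.getElem?_append_right (by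
      rw [List.length_append, HI_length_cpl]; omega)]
    have : 2 * m - (A ++ cpl A).length = 0 := by
      rw [List.length_append, HI_length_cpl]; omega
    rw [this]
    rfl
  have h3 : (embL A).getD (2 * m + 1) false = true := by
    unfold embL
    rw [← List.append_assoc, List.getD_eq_getElem?_getD, List.getElem?_append_right (by
      rw [List.length_append, HI_length_cpl]; omega)]
    have : 2 * m + 1 - (A ++ cpl A).length = 1 := by
      rw [List.length_append, HI_length_cpl]; omega
    rw [this]
    rfl
  have h4 : frL F X m (A ++ cpl A) =
      fit m (F (pairBits X A)) ++ cpl (fit m (F (pairBits X A))) := by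
    unfold frL
    have e1 : (A ++ cpl A).take m = A := List.take_left' hA
    have e2 : ((A ++ cpl A).drop m).take m = cpl A := by
      rw [List.drop_left' hA, List.take_of_length_le (by rw [HI_length_cpl]; omega)]
    rw [e1, e2]
    have e3 : fndL A (cpl A) = id := by
      funext c
      exact HI_fnd A c
    rw [e3, List.map_id]
  unfold stL
  rw [h1, h2, h3, h4, HI_zip τ _ _ (by
    rw [HI_length_fr, List.length_append, HI_length_cpl, HI_length_fit])]
  unfold embL
  rw [List.append_assoc]

theorem HI_step (τ : Fin 3) (F F' : List Bool → List Bool) (X : List Bool) (m : ℕ)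
    (h : ∀ β, F' (pairBits X β) = stL τ F X m β) (a : Fin m → Bool) :
    step F' X (2 * m + 2) (vec (2 * m + 2) (embL (List.ofFn a))) =
      vec (2 * m + 2) (embL (List.ofFn (step F X m a))) := by
  have h1 : List.ofFn (vec (2 * m + 2) (embL (List.ofFn a))) = embL (List.ofFn a) := by
    apply List.ext_getElem
    · rw [List.length_ofFn]
      simp [embL, HI_length_cpl]
      omega
    · intro i h1 h2
      rw [List.getElem_ofFn]
      simp only [vec]
      rw [List.getD_eq_getElem _ _ h2]
  have h2 : List.ofFn (step F X m a) = fit m (F (pairBits X (List.ofFn a))) := by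
    rw [HI_fit_eq]
    rfl
  funext j
  show (F' (pairBits X (List.ofFn (vec (2 * m + 2) (embL (List.ofFn a)))))).getD j false = _
  rw [h1, h, HI_st τ F X m _ (List.length_ofFn), ← h2]
  rfl

theorem u_HI : U_HI := by
  intro τ F F' X m h k
  induction k with
  | zero =>
    intro a
    rfl
  | succ k ih =>
    intro a
    rw [Function.iterate_succ_apply, HI_step τ F F' X m h, ih, ← Function.iterate_succ_apply]

end Pool.Agent.H547U1
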