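import Pool.Agent.H547U1.Stm
import Pool.Agent.H547S1.T_GDC
import Pool.Agent.H547R8.T_CKT
import Pool.Agent.H547R8.T_LAY
import Pool.Agent.H547R9.T_REN

/-!
# Circuits for the predicate
-/

set_option autoImplicit false

namespace Pool.Agent.H547U1

open Pool.Agent.H547R6 Pool.Agent.H547R7 Pool.Agent.H547R8 Pool.Agent.NPC Pool.Agent.H547S1

theorem HN_cpl {m : ℕ} (y : Fin m → Bool) : cpl (List.ofFn y) = List.ofFn fun i => !y i := by
  unfold cpl
  rw [List.map_ofFn]
  rfl

theorem HN_getD {N : ℕ} (w : Fin N → Bool) (i : ℕ) (hi : i < N) :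
    (List.ofFn w).getD i false = w ⟨i, hi⟩ := by
  rw [List.getD_eq_getElem?_getD]
  simp [hi]

theorem HN_take {m N : ℕ} (w : Fin N → Bool) (k : ℕ) (h : ∀ i : Fin m, k + i.1 < N) :
    ((List.ofFn w).drop k).take m = List.ofFn fun i : Fin m => w ⟨k + i.1, h i⟩ := by
  apply List.ext_getElem
  · rw [List.length_take, List.length_drop, List.length_ofFn, List.length_ofFn]
    rcases Nat.eq_zero_or_pos m with h0 | h0
    · omega
    · have := h ⟨m - 1, by omega⟩
      simp only at this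
      omega
  · intro i h1 h2
    rw [List.getElem_take, List.getElem_drop, List.getElem_ofFn, List.getElem_ofFn]

/-- the renaming of the inputs -/
def HN_s {N : ℕ} (m : ℕ) (a b : Fin N) (h : ∀ i : Fin m, m + 1 + i.1 < N) : Fin (m + 2) → Fin N :=
  Fin.cons a (Fin.cons b fun i => ⟨m + 1 + i.1, h i⟩)

theorem u_HN : U_HN := by
  intro B τ V e hB hV
  obtain ⟨q, hq⟩ := t_CKT t_LAY V hV (e + 1) (fun m => by simp)
  obtain ⟨c, hc⟩ := t_GDC B τ hB
  refine ⟨Polynomial.C c * (q + (e + 1) + 1), fun X => ?_⟩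
  have hm : (e + 1).eval X.length = len e X := by simp [len]
  have hm' : len (e + 1) X = len e X + 1 := by simp [len]
  have hQ : (Polynomial.C c * (q + (e + 1) + 1)).eval X.length =
      c * (q.eval X.length + len e X + 1) := by
    simp [len]
  have h1 := hq X
  rw [hm] at h1
  rw [hQ, hm']
  have h2 := hc _ _ _ h1
  generalize len e X = m at h1 h2 ⊢
  generalize q.eval X.length = s at h1 h2 ⊢
  have hb : ∀ i : Fin m, m + 1 + i.1 < m + 1 + (m + 1) := fun i => by omega
  have h3 := (H547R9.t_REN).1 B _ _ _ (HN_s m (⟨0, by omega⟩ : Fin (m + 1 + (m + 1)))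
    (⟨1, by omega⟩ : Fin (m + 1 + (m + 1))) hb) _ h2
  have e1 : (fun w : Fin (m + 1 + (m + 1)) → Bool => prL τ V X m (List.ofFn w)) =
      fun w => Tf τ (w ⟨0, by omega⟩) (w ⟨1, by omega⟩)
        (acc V X m fun i => w ⟨m + 1 + i.1, hb i⟩)
        (acc V X m fun i => !w ⟨m + 1 + i.1, hb i⟩) := by
    funext w
    unfold prL acc
    rw [HN_getD w 0 (by omega), HN_getD w 1 (by omega), HN_take w (m + 1) hb, HN_cpl]
  rw [e1]
  exact h3

end Pool.Agent.H547U1
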