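import Pool.Agent.H547U1.Stm
import Pool.Agent.H547S1.T_TBT

/-!
# The simulation in polynomial time (helper355)
-/

set_option autoImplicit false

namespace Pool.Agent.H547U1

open Pool.Agent.H547R6 Pool.Agent.H547R7 Pool.Agent.H547R8 Pool.Agent.NPC Pool.Agent.H547S1
open Pool.Agent.H583R2 Pool.Agent.H545R2.KS

section

variable {α : Type} [H583R2.TEnc α]

theorem HP_pf_cpl {l : α → List Bool} (hl : PF l) : PF (fun a => cpl (l a)) := by
  unfold cpl
  exact PF.map (f := fun _ b => !b) hl (PF.not PF.snd)

theorem HP_zip (c c' : List Bool) :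
    (List.range (min c.length c'.length)).map (fun i => (c.getD i false, c'.getD i false)) =
      List.zip c c' := by
  apply List.ext_getElem
  · simp
  · intro i h1 h2
    have h3 : i < c.length ∧ i < c'.length := by
      simp only [List.length_zip] at h2
      omega
    simp [List.getElem?_eq_getElem h3.1, List.getElem?_eq_getElem h3.2]

theorem HP_pf_zip {u v : α → List Bool} (hu : PF u) (hv : PF v) :
    PF (fun a => List.zip (u a) (v a)) := by
  refine (PF.map (f := fun a i => ((u a).getD i false, (v a).getD i false))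
    (PF.range (PF.min (PF.length hu) (PF.length hv))) ?_).congr (fun a => HP_zip _ _)
  exact (PF.listGetD PF.snd (hu.comp PF.fst) (PF.const false)).pair
    (PF.listGetD PF.snd (hv.comp PF.fst) (PF.const false))

theorem HP_pf_fndL {u v : α → List Bool} {c : α → Bool} (hu : PF u) (hv : PF v) (hc : PF c) :
    PF (fun a => fndL (u a) (v a) (c a)) := by
  unfold fndL
  refine PF.headD (PF.append (PF.map (f := fun _ p => p.1) (PF.filter (f := fun _ p => p.1 == p.2)
    (HP_pf_zip hu hv) ?_) ?_) (PF.cons hc (PF.const []))) (PF.const false)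
  · exact PF.beqBool (PF.fst' PF.snd) (PF.snd' PF.snd)
  · exact PF.fst' PF.snd

theorem HP_pf_frL {F : List Bool → List Bool} (hF : PolyTime F) {X z : α → List Bool}
    {m : α → ℕ} (hX : PF X) (hm : PF m) (hz : PF z) : PF (fun a => frL F (X a) (m a) (z a)) := by
  have h1 : PF (fun a => fit (m a) (F (pairBits (X a) ((z a).take (m a))))) :=
    TBT_pf_fit hm ((pf_of_polyTime hF).comp (pf_pairBits hX (PF.take hm hz)))
  unfold frL
  refine PF.map (f := fun a c => fndL ((z a).take (m a)) (((z a).drop (m a)).take (m a)) c)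
    (PF.append h1 (HP_pf_cpl h1)) ?_
  exact HP_pf_fndL ((PF.take hm hz).comp PF.fst) ((PF.take hm (PF.drop hm hz)).comp PF.fst) PF.snd

theorem HP_pf_stL (τ : Fin 3) {F : List Bool → List Bool} (hF : PolyTime F)
    {X β : α → List Bool} {m : α → ℕ} (hX : PF X) (hm : PF m) (hβ : PF β) :
    PF (fun a => stL τ F (X a) (m a) (β a)) := by
  have h2 : PF (fun a => 2 * m a) := PF.mul (PF.const 2) hm
  have h3 : PF (fun a => (β a).getD (2 * m a) false) := PF.listGetD h2 hβ (PF.const false)
  have h4 : PF (fun a => (β a).getD (2 * m a + 1) false) :=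
    PF.listGetD (PF.succ h2) hβ (PF.const false)
  have h5 : PF (fun a => (β a).take (2 * m a)) := PF.take h2 hβ
  unfold stL
  exact PF.append (TBT_pf_zip τ h3 h4 (HP_pf_frL hF hX hm h5) (HP_pf_frL hF hX hm (HP_pf_cpl h5)))
    (PF.cons h3 (PF.cons h4 (PF.const [])))

end

theorem u_HP : U_HP := by
  intro τ F s e hF hs
  have hlen : ∀ {α : Type} [H583R2.TEnc α] {X : α → List Bool}, PF X →
      PF (fun a => len e (X a)) := fun hX => PF.succ (pf_eval (PF.length hX) e)
  refine ⟨fun z => stL τ F (spl z).1 (len e (spl z).1) (spl z).2,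
    fun X => embL (fit (len e X) (s X)), ?_, ?_, ?_, fun X => rfl⟩
  · apply polyTime_of_pf
    have h1 : PF (fun z : List Bool => (spl z).1) := PF.fst' (PF.spl PF.id)
    exact HP_pf_stL τ hF h1 (hlen h1) (PF.snd' (PF.spl PF.id))
  · apply polyTime_of_pf
    have h1 : PF (fun X : List Bool => fit (len e X) (s X)) :=
      TBT_pf_fit (hlen PF.id) (pf_of_polyTime hs)
    unfold embL
    exact PF.append h1 (PF.append (HP_pf_cpl h1) (PF.const [false, true]))
  · intro X β
    simp only [spl_pairBits]

end Pool.Agent.H547U1
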