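import Pool.Agent.H547U1.Stm
import Pool.Agent.H545R2.KS.Base

/-!
# The predicate in polynomial time (helper940)
-/

set_option autoImplicit false

namespace Pool.Agent.H547U1

open Pool.Agent.H547R6 Pool.Agent.H547R7 Pool.Agent.H547R8 Pool.Agent.NPC Pool.Agent.H547S1
open Pool.Agent.H583R2 Pool.Agent.H545R2.KS

section

variable {α : Type} [H583R2.TEnc α]

theorem HQ_pf_Tf (τ : Fin 3) {y0 y1 c c' : α → Bool} (hy0 : PF y0) (hy1 : PF y1) (hc : PF c)
    (hc' : PF c') : PF (fun a => Tf τ (y0 a) (y1 a) (c a) (c' a)) := by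
  by_cases h0 : τ = 0
  · exact (PF.or hy0 (PF.and hy1 hc)).congr (fun a => by simp [Tf, h0])
  · by_cases h1 : τ = 1
    · exact (PF.and hy1 (PF.or hy0 hc)).congr (fun a => by simp [Tf, h1])
    · exact (PF.ite (PF.beqBool hy0 hy1) hy0 (PF.ite hy1 hc (PF.not hc'))).congr
        (fun a => by simp [Tf, h0, h1])

theorem HQ_pf_acc {V : List Bool → List Bool} (hV : PolyTime V) {X y : α → List Bool}
    (hX : PF X) (hy : PF y) : PF (fun a => decide (V (pairBits (X a) (y a)) = [true])) := by
  have h1 : PF (fun a => V (pairBits (X a) (y a))) :=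
    (pf_of_polyTime hV).comp (pf_pairBits hX hy)
  refine (PF.beqStr h1 (PF.const [true])).congr (fun a => ?_)
  rw [beq_eq_decide]

end

theorem u_HQ : U_HQ := by
  intro τ V e hV
  refine ⟨fun z => [prL τ V (spl z).1 (len e (spl z).1) (spl z).2], polyTime_of_pf ?_,
    fun X w => ?_⟩
  · have hz : PF (fun z : List Bool => z) := PF.id
    have hX : PF (fun z : List Bool => (spl z).1) := PF.fst' (PF.spl hz)
    have hw : PF (fun z : List Bool => (spl z).2) := PF.snd' (PF.spl hz)
    have hm : PF (fun z : List Bool => len e (spl z).1) := PF.succ (pf_eval (PF.length hX) e)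
    have hs : PF (fun z : List Bool =>
        ((spl z).2.drop (len e (spl z).1 + 1)).take (len e (spl z).1)) :=
      PF.take hm (PF.drop (PF.succ hm) hw)
    have hc : PF (fun z : List Bool =>
        cpl (((spl z).2.drop (len e (spl z).1 + 1)).take (len e (spl z).1))) := by
      unfold cpl
      exact PF.map (f := fun _ b => !b) hs (PF.not PF.snd)
    have h0 : PF (fun z : List Bool => (spl z).2.getD 0 false) :=
      PF.listGetD (PF.const 0) hw (PF.const false)
    have h1 : PF (fun z : List Bool => (spl z).2.getD 1 false) :=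
      PF.listGetD (PF.const 1) hw (PF.const false)
    have h2 := HQ_pf_acc hV hX hs
    have h3 := HQ_pf_acc hV hX hc
    have h4 : PF (fun z : List Bool => prL τ V (spl z).1 (len e (spl z).1) (spl z).2) := by
      unfold prL
      exact HQ_pf_Tf τ h0 h1 h2 h3
    exact PF.cons h4 (PF.const [])
  · show [prL τ V (spl (pairBits X w)).1 (len e (spl (pairBits X w)).1)
      (spl (pairBits X w)).2] = _
    rw [spl_pairBits]

end Pool.Agent.H547U1
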