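import Pool.Agent.H547U1.Stm
import Pool.Agent.H547S1.T_GL3

/-!
# `NEXP` over affine gates (helper509)
-/

set_option autoImplicit false

namespace Pool.Agent.H547U1

open Pool.Agent.H547R6 Pool.Agent.H547R7 Pool.Agent.H547R8 Pool.Agent.NPC Pool.Agent.H547S1
open Pool.Agent.H583R2
open Pool.Agent.H545R2.KS (polyTime_of_pf pf_eval pf_of_polyTime pf_pairBits)

/-- the zero vector (`r = 0`) or a unit vector, as a list -/
def NA_u (m r : ℕ) : List Bool := (List.range m).map fun i => decide (i + 1 = r)

/-- the algorithm -/
def NA_V (V s : List Bool → List Bool) (e : Polynomial ℕ) (X : List Bool) : List Bool :=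
  [(List.range (len e X + 1)).any fun r =>
    V (pairBits X (fit (len e X) (s X) ++ NA_u (len e X) r)) == [true]]

theorem NA_poly {V s : List Bool → List Bool} (hV : PolyTime V) (hs : PolyTime s)
    (e : Polynomial ℕ) : PolyTime (NA_V V s e) := by
  apply polyTime_of_pf
  unfold NA_V NA_u fit len
  have hm : PF (fun X : List Bool => e.eval X.length + 1) :=
    PF.succ (pf_eval (PF.length PF.id) e)
  refine PF.cons ?_ (PF.const [])
  refine PF.any (f := fun (X : List Bool) (r : ℕ) => V (pairBits X
    ((s X ++ List.replicate (e.eval X.length + 1) false).take (e.eval X.length + 1) ++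
      (List.range (e.eval X.length + 1)).map fun i => decide (i + 1 = r))) == [true])
    (PF.range (PF.succ hm)) ?_
  refine PF.beqStr ?_ (PF.const [true])
  refine (pf_of_polyTime hV).comp (pf_pairBits PF.fst (PF.append ?_ ?_))
  · have h1 : PF (fun p : List Bool × ℕ => e.eval p.1.length + 1) := hm.comp PF.fst
    exact PF.take h1 (PF.append ((pf_of_polyTime hs).comp PF.fst)
      (PF.replicate h1 (PF.const false)))
  · refine PF.map (f := fun (p : List Bool × ℕ) (i : ℕ) => decide (i + 1 = p.2))
      (PF.range (hm.comp PF.fst)) ?_
    exact PF.natEq (PF.succ PF.snd) (PF.snd.comp PF.fst)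

theorem NA_fit (m : ℕ) (l : List Bool) : List.ofFn (vec m l) = fit m l := by
  apply List.ext_getElem
  · rw [List.length_ofFn]
    unfold fit
    rw [List.length_take, List.length_append, List.length_replicate]
    omega
  · intro i h1 h2
    rw [List.length_ofFn] at h1
    rw [List.getElem_ofFn]
    unfold vec fit
    rw [List.getElem_take, List.getD_eq_getElem?_getD]
    by_cases hi : i < l.length
    · rw [List.getElem_append_left hi, List.getElem?_eq_getElem hi]
      rfl
    · rw [List.getElem_append_right (by omega), List.getElem_replicate,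
        List.getElem?_eq_none (Nat.le_of_not_lt hi)]
      rfl

theorem NA_uf (m r : ℕ) : NA_u m r = List.ofFn fun i : Fin m => decide (i.val + 1 = r) := by
  unfold NA_u
  apply List.ext_getElem
  · simp
  · intro i h1 h2
    simp

/-- an affine function which vanishes at zero and at the unit vectors vanishes -/
theorem NA_aff {m : ℕ} (g : (Fin m → Bool) → Bool)
    (hg : ∀ x y z, g (fun i => xor (x i) (xor (y i) (z i))) = xor (g x) (xor (g y) (g z)))
    (h : ∀ r, r < m + 1 → g (fun i => decide (i.val + 1 = r)) = false) (y : Fin m → Bool) :
    g y = false := by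
  have h0 : g (fun _ => false) = false := by
    have := h 0 (by omega)
    have e1 : (fun i : Fin m => decide (i.val + 1 = 0)) = fun _ => false := by
      funext i
      simp
    rwa [e1] at this
  have key : ∀ S : Finset (Fin m), g (fun i => decide (i ∈ S)) = false := by
    intro S
    induction S using Finset.induction_on with
    | empty =>
      have e1 : (fun i : Fin m => decide (i ∈ (∅ : Finset (Fin m)))) = fun _ => false := by
        funext i
        simp
      rw [e1]
      exact h0
    | insert a S ha ih =>
      have e1 : (fun i : Fin m => decide (i ∈ insert a S)) =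
          fun i => xor (decide (i ∈ S)) (xor (decide (i.val + 1 = a.val + 1)) false) := by
        funext i
        simp only [Finset.mem_insert]
        by_cases hi : i = a
        · subst hi
          simp [ha]
        · have : i.val ≠ a.val := fun hh => hi (Fin.ext hh)
          simp [hi, this]
      rw [e1, hg (fun i => decide (i ∈ S)) (fun i => decide (i.val + 1 = a.val + 1))
        (fun _ => false), ih, h (a.val + 1) (by have := a.isLt; omega), h0]
      rfl
  have e1 : y = fun i => decide (i ∈ Finset.univ.filter fun j => y j = true) := by
    funext i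
    simp
  rw [e1]
  exact key _

theorem u_NA : U_NA := by
  intro B hB L hL
  obtain ⟨V, s, p, e, q, hV, hs, h⟩ := hL
  refine ⟨NA_V V s e, p, NA_poly hV hs e, ?_⟩
  intro x
  obtain ⟨h1, h2⟩ := h x
  rw [h2]
  set X := pad p x with hX
  have hA := t_GL3 B Aff (Or.inl rfl) hB _ _ _ h1
  set g : (Fin (len e X) → Bool) → Bool := fun y =>
    acc V X (len e X + len e X) (Fin.append (vec (len e X) (s X)) y) with hg
  have hgA : ∀ x y z, g (fun i => xor (x i) (xor (y i) (z i))) = xor (g x) (xor (g y) (g z)) := by
    intro a b c
    have := hA (Fin.append (vec (len e X) (s X)) a) (Fin.append (vec (len e X) (s X)) b)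
      (Fin.append (vec (len e X) (s X)) c)
    rw [hg]
    simp only
    rw [← this]
    simp only
    congr 1
    funext i
    refine Fin.addCases (fun j => ?_) (fun j => ?_) i
    · simp only [Fin.append_left]
      cases vec (len e X) (s X) j <;> rfl
    · simp only [Fin.append_right]
  have hval : ∀ y, g y = (V (pairBits X (fit (len e X) (s X) ++ List.ofFn y)) == [true]) := by
    intro y
    have e1 : List.ofFn (Fin.append (vec (len e X) (s X)) y) =
        fit (len e X) (s X) ++ List.ofFn y := by
      rw [List.ofFn_fin_append, NA_fit]
    simp only [hg]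
    unfold acc
    rw [e1, beq_eq_decide]
  have hV' : NA_V V s e X = [true] ↔ ∃ r, r < len e X + 1 ∧
      g (fun i => decide (i.val + 1 = r)) = true := by
    unfold NA_V
    rw [List.cons.injEq]
    simp only [and_true]
    rw [List.any_eq_true]
    constructor
    · rintro ⟨r, hr, hr2⟩
      refine ⟨r, List.mem_range.1 hr, ?_⟩
      rw [hval, ← NA_uf]
      exact hr2
    · rintro ⟨r, hr, hr2⟩
      refine ⟨r, List.mem_range.2 hr, ?_⟩
      rw [hval, ← NA_uf] at hr2
      exact hr2
  rw [hV']
  constructor
  · rintro ⟨y, hy⟩
    by_contra hc
    push Not at hc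
    have := NA_aff g hgA (fun r hr => by
      have := hc r hr
      revert this
      cases g (fun i => decide (i.val + 1 = r)) <;> simp) y
    rw [hg] at this
    simp only at this
    rw [this] at hy
    exact Bool.false_ne_true hy
  · rintro ⟨r, _, hr⟩
    exact ⟨_, hr⟩

end Pool.Agent.H547U1
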