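import Pool.Agent.H547U1.Stm
import Pool.Agent.H547S1.T_GL3
import Pool.Agent.H545R2.KS.Base

/-!
# Monotone predicates
-/

set_option autoImplicit false

namespace Pool.Agent.H547U1

open Pool.Agent.H547R6 Pool.Agent.H547R7 Pool.Agent.H547R8 Pool.Agent.NPC Pool.Agent.H547S1
  Pool.Agent.H583R2
open Pool.Agent.H545R2.KS (polyTime_of_pf pf_of_polyTime pf_eval pf_pairBits)

theorem NM_ofFn_vec (m : ℕ) (l : List Bool) : List.ofFn (vec m l) = fit m l := by
  have hlen : (fit m l).length = m := by
    unfold fit
    rw [List.length_take, List.length_append, List.length_replicate]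
    omega
  refine List.ext_getElem (by rw [List.length_ofFn, hlen]) ?_
  intro i h1 h2
  have h3 : i < m := by rw [hlen] at h2; exact h2
  have e : (fit m l)[i] = (l ++ List.replicate m false)[i]'(by
      rw [List.length_append, List.length_replicate]; omega) := by
    simp only [fit, List.getElem_take]
  rw [e, List.getElem_ofFn]
  show l.getD i false = _
  rw [List.getD_eq_getElem?_getD]
  by_cases hi : i < l.length
  · rw [List.getElem?_eq_getElem hi, Option.getD_some, List.getElem_append_left hi]
  · rw [List.getElem?_eq_none (by omega), Option.getD_none,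
      List.getElem_append_right (by omega), List.getElem_replicate]

theorem NM_append (m : ℕ) (u v : Fin m → Bool) :
    List.ofFn (Fin.append u v) = List.ofFn u ++ List.ofFn v :=
  List.ofFn_fin_append u v

/-- the algorithm -/
def NM_V (V s : List Bool → List Bool) (e : Polynomial ℕ) (X : List Bool) : List Bool :=
  V (pairBits X (fit (len e X) (s X) ++ List.replicate (len e X) true))

theorem NM_pf (V s : List Bool → List Bool) (e : Polynomial ℕ) (hV : PolyTime V)
    (hs : PolyTime s) : PolyTime (NM_V V s e) := by
  refine polyTime_of_pf ?_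
  have hm : PF fun X : List Bool => len e X := PF.succ (pf_eval (PF.length PF.id) e)
  have hfit : PF fun X : List Bool => fit (len e X) (s X) :=
    PF.take hm (PF.append (pf_of_polyTime hs) (PF.replicate hm (PF.const false)))
  exact (pf_of_polyTime hV).comp
    (pf_pairBits PF.id (PF.append hfit (PF.replicate hm (PF.const true))))

theorem u_NM : U_NM := by
  rintro B hB L ⟨V, s, p, e, q, hV, hs, h⟩
  refine ⟨NM_V V s e, p, NM_pf V s e hV hs, fun x => ?_⟩
  obtain ⟨hc, hx⟩ := h x
  rw [hx]
  have hmon := t_GL3 B Mon (Or.inr (Or.inr (Or.inr (Or.inr rfl)))) hB _ _ _ hc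
  generalize pad p x = X at *
  have key : acc V X (len e X + len e X) (Fin.append (vec (len e X) (s X)) fun _ => true) = true ↔
      NM_V V s e X = [true] := by
    unfold acc NM_V
    rw [decide_eq_true_eq, NM_append, NM_ofFn_vec, List.ofFn_const]
  rw [← key]
  constructor
  · rintro ⟨y, hy⟩
    refine hmon _ _ (fun i => ?_) hy
    refine Fin.addCases (fun j => ?_) (fun j => ?_) i
    · rw [Fin.append_left, Fin.append_left]
      exact fun h => h
    · rw [Fin.append_right, Fin.append_right]
      exact fun _ => rfl
  · intro hy
    exact ⟨_, hy⟩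

end Pool.Agent.H547U1
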