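import Pool.Agent.H547U1.Stm
import Pool.Agent.H547S1.T_PAF

/-!
# `NEXP` over a set of Boolean functions is contained in `NEXP`
-/

set_option autoImplicit false

namespace Pool.Agent.H547U1

open Pool.Agent.H547R6 Pool.Agent.H547R7 Pool.Agent.H547R8 Pool.Agent.NPC Pool.Agent.H547S1
open Pool.Agent.H583R2 Pool.Agent.H545R2.KS

/-- the verifier which knows the fixed half of the input -/
def NN_V (V s : List Bool → List Bool) (e : Polynomial ℕ) (z : List Bool) : List Bool :=
  V (pairBits (spl z).1 (fit (len e (spl z).1) (s (spl z).1) ++ (spl z).2))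

theorem NN_poly {V s : List Bool → List Bool} (hV : PolyTime V) (hs : PolyTime s)
    (e : Polynomial ℕ) : PolyTime (NN_V V s e) := by
  apply polyTime_of_pf
  unfold NN_V
  have h1 : PF (fun z : List Bool => spl z) := PF.spl PF.id
  have hX := PF.fst' h1
  have hlen : PF (fun z : List Bool => len e (spl z).1) := by
    have := pf_eval (PF.length hX) (e + 1)
    refine this.congr fun a => ?_
    simp [len]
  exact (pf_of_polyTime hV).comp (pf_pairBits hX
    (PF.append (PAF_pf_fit hlen ((pf_of_polyTime hs).comp hX)) (PF.snd' h1)))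

theorem NN_vec (m : ℕ) (l : List Bool) : List.ofFn (vec m l) = fit m l := by
  have hl := PAF_len_fit m l
  unfold fit at hl ⊢
  apply List.ext_getElem
  · rw [List.length_ofFn, hl]
  · intro j h1 h2
    rw [List.length_ofFn] at h1
    rw [List.getElem_ofFn, List.getElem_take]
    unfold vec
    simp only
    by_cases hj : j < l.length
    · rw [List.getElem_append_left hj, List.getD_eq_getElem _ _ hj]
    · rw [List.getElem_append_right (by omega), List.getElem_replicate,
        List.getD_eq_default _ _ (by omega)]

theorem NN_acc (V s : List Bool → List Bool) (e : Polynomial ℕ) (X : List Bool)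
    (y : Fin (len e X) → Bool) :
    acc (NN_V V s e) X (len e X) y =
      acc V X (len e X + len e X) (Fin.append (vec (len e X) (s X)) y) := by
  unfold acc NN_V
  rw [spl_pairBits, List.ofFn_fin_append, NN_vec]

theorem u_NN : U_NN := by
  rintro B L ⟨V, s, p, e, q, hV, hs, h⟩
  refine ⟨NN_V V s e, p, e, NN_poly hV hs e, fun x => ?_⟩
  rw [(h x).2]
  constructor
  · rintro ⟨y, hy⟩
    exact ⟨y, by rw [NN_acc]; exact hy⟩
  · rintro ⟨y, hy⟩
    exact ⟨y, by rw [NN_acc] at hy; exact hy⟩

end Pool.Agent.H547U1
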