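import Pool.Agent.H547U1.Asm
import Pool.Agent.H547U1.T_EE
import Pool.Agent.H547U1.T_EVC
import Pool.Agent.H547U1.T_EVP
import Pool.Agent.H547U1.T_HC
import Pool.Agent.H547U1.T_HI
import Pool.Agent.H547U1.T_HN
import Pool.Agent.H547U1.T_HP
import Pool.Agent.H547U1.T_HQ
import Pool.Agent.H547U1.T_NA
import Pool.Agent.H547U1.T_NM
import Pool.Agent.H547U1.T_NN

namespace Pool.Agent.H547U1

open Pool.Agent.H547R6 Pool.Agent.H547R7 Pool.Agent.H547R8 Pool.Agent.H547R9 Pool.Agent.NPC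

theorem space_easy (B : Set BFun) (hB : B ⊆ Aff ∨ B ⊆ Conj ∨ B ⊆ Disj) :
    EXPSPACEover B = EXP := by
  refine Set.Subset.antisymm ?_ (u_EE B).2
  rcases hB with h | h | h
  · exact sp_easy u_EVC u_EVP B 0 (by simpa [cls] using h)
  · exact sp_easy u_EVC u_EVP B 1 (by simpa [cls] using h)
  · exact sp_easy u_EVC u_EVP B 2 (by simpa [cls] using h)

theorem space_hard (B : Set BFun) (hA : ¬ B ⊆ Aff) (hC : ¬ B ⊆ Conj) (hD : ¬ B ⊆ Disj) :
    EXPSPACEover B = EXPSPACE :=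
  Set.Subset.antisymm (sp_sub B) (sp_hard u_HP u_HC u_HI B hA hC hD)

theorem ndet_easy (B : Set BFun) (hB : B ⊆ Aff ∨ B ⊆ Mon) : NEXPover B = EXP := by
  refine Set.Subset.antisymm ?_ (u_EE B).1
  rcases hB with h | h
  · exact u_NA B h
  · exact u_NM B h

theorem ndet_hard (B : Set BFun) (hM : ¬ B ⊆ Mon) (hA : ¬ B ⊆ Aff) : NEXPover B = NEXP :=
  Set.Subset.antisymm (u_NN B) (ne_hard u_HN u_HQ B hM hA)

end Pool.Agent.H547U1
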