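import Pool.Agent.H547S1.Defs

/-!
# Exponential space and nondeterministic exponential time over sets of Boolean functions:
definitions
-/

set_option autoImplicit false

namespace Pool.Agent.H547U1

open Pool.Agent.H547R6 Pool.Agent.H547R7 Pool.Agent.H547R8 Pool.Agent.NPC Pool.Agent.H547S1

/-- the padded input: `x` together with `1^N`, where `N = 2 ^ (p |x|)` -/
def pad (p : ℕ) (x : List Bool) : List Bool := pairBits (ones (2 ^ (p * x.length))) x

/-- a positive length polynomial in the length of `X` -/
abbrev len (e : Polynomial ℕ) (X : List Bool) : ℕ := e.eval X.length + 1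

/-- the class of the languages decidable in time `2 ^ O(n)` -/
def EXP : Set (Set (List Bool)) :=
  {L | ∃ (V : List Bool → List Bool) (p : ℕ), PolyTime V ∧
    ∀ x, x ∈ L ↔ V (pad p x) = [true]}

/-- the class of the languages decidable nondeterministically in time `2 ^ O(n)` -/
def NEXP : Set (Set (List Bool)) :=
  {L | ∃ (V : List Bool → List Bool) (p : ℕ) (e : Polynomial ℕ), PolyTime V ∧
    ∀ x, x ∈ L ↔ ∃ y, acc V (pad p x) (len e (pad p x)) y = true}

/-- `NEXP` over `B`: the predicate on the witness `y` and on a string `s` computed from the
(padded) input has circuits over `B`, of size polynomial in the length of the padded input. -/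
def NEXPover (B : Set BFun) : Set (Set (List Bool)) :=
  {L | ∃ (V s : List Bool → List Bool) (p : ℕ) (e q : Polynomial ℕ), PolyTime V ∧ PolyTime s ∧
    ∀ x, Computes B (len e (pad p x) + len e (pad p x)) (q.eval (pad p x).length)
        (acc V (pad p x) (len e (pad p x) + len e (pad p x))) ∧
      (x ∈ L ↔ ∃ y, acc V (pad p x) (len e (pad p x) + len e (pad p x))
        (Fin.append (vec (len e (pad p x)) (s (pad p x))) y) = true)}

/-- one step: the map `a ↦ F (X, a)` on `m` bits -/
def step (F : List Bool → List Bool) (X : List Bool) (m : ℕ) (a : Fin m → Bool) : Fin m → Bool :=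
  fun j => (F (pairBits X (List.ofFn a))).getD j false

/-- The configuration `s (X)` is mapped by `2 ^ |X|` steps to a configuration whose first bit is
one. -/
def SpAcc (F s : List Bool → List Bool) (e : Polynomial ℕ) (X : List Bool) : Prop :=
  ((step F X (len e X))^[2 ^ X.length] (vec (len e X) (s X))) 0 = true

/-- The class of the languages decidable in space `2 ^ O(n)`: configurations of length polynomial
in the length of the padded input, a number of steps exponential in this length. -/
def EXPSPACE : Set (Set (List Bool)) :=
  {L | ∃ (F s : List Bool → List Bool) (p : ℕ) (e : Polynomial ℕ), PolyTime F ∧ PolyTime s ∧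
    ∀ x, x ∈ L ↔ SpAcc F s e (pad p x)}

/-- `EXPSPACE` over `B`: each bit of the next configuration has a circuit over `B`. -/
def EXPSPACEover (B : Set BFun) : Set (Set (List Bool)) :=
  {L | ∃ (F s : List Bool → List Bool) (p : ℕ) (e q : Polynomial ℕ), PolyTime F ∧ PolyTime s ∧
    ∀ x, (∀ j, Computes B (len e (pad p x)) (q.eval (pad p x).length)
        fun a => step F (pad p x) (len e (pad p x)) a j) ∧
      (x ∈ L ↔ SpAcc F s e (pad p x))}

/-! ### auxiliary notions for the proofs -/

/-- the easy classes -/
def cls (κ : Fin 3) : Set BFun := if κ = 0 then Aff else if κ = 1 then Conj else Disj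

/-- base point -/
def bs (κ : Fin 3) : Bool := decide (κ = 1)

/-- the operation of the class -/
def op (κ : Fin 3) (a t t₀ : Bool) : Bool :=
  if κ = 0 then xor a (xor t t₀) else if κ = 1 then a && t else a || t

/-- evaluation of a map given by the table `T` of its values at the base point and its
neighbours -/
def evL (κ : Fin 3) (m : ℕ) (T : List (List Bool)) (a : List Bool) : List Bool :=
  (List.range m).foldl (fun u i => bif xor (a.getD i false) (bs κ) then
    (List.range m).map fun j => op κ (u.getD j false) ((T.getD (i + 1) []).getD j false)
      ((T.getD 0 []).getD j false) else u) (T.getD 0 [])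

/-- the base point (`r = 0`) and its neighbours -/
def pt (κ : Fin 3) (m r : ℕ) : List Bool :=
  (List.range m).map fun i => xor (bs κ) (decide (i + 1 = r))

/-- the table of a map -/
def tabL (κ : Fin 3) (F : List Bool → List Bool) (X : List Bool) (m : ℕ) : List (List Bool) :=
  (List.range (m + 1)).map fun r => fit m (F (pairBits X (pt κ m r)))

/-- the table of the square of a map -/
def sqL (κ : Fin 3) (m : ℕ) (T : List (List Bool)) : List (List Bool) := T.map fun u => evL κ m T u

/-- the first bit after `2 ^ k` steps -/
def runL (κ : Fin 3) (F s : List Bool → List Bool) (X : List Bool) (m k : ℕ) : Bool :=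
  (evL κ m ((sqL κ m)^[k] (tabL κ F X m)) (fit m (s X))).getD 0 false

/-- the first pair with equal components decides; if there is none: `c` -/
def fndL (a b : List Bool) (c : Bool) : Bool :=
  (((List.zip a b).filter fun p => p.1 == p.2).map Prod.fst ++ [c]).headD false

/-- the monotone version of one step, on strings of pairs of bits -/
def frL (F : List Bool → List Bool) (X : List Bool) (m : ℕ) (z : List Bool) : List Bool :=
  (fit m (F (pairBits X (z.take m))) ++ cpl (fit m (F (pairBits X (z.take m))))).map
    (fndL (z.take m) ((z.drop m).take m))

/-- one step of the simulation, on `2 m + 2` bits -/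
def stL (τ : Fin 3) (F : List Bool → List Bool) (X : List Bool) (m : ℕ) (β : List Bool) :
    List Bool :=
  List.zipWith (Tf τ (β.getD (2 * m) false) (β.getD (2 * m + 1) false))
    (frL F X m (β.take (2 * m))) (frL F X m (cpl (β.take (2 * m)))) ++
  [β.getD (2 * m) false, β.getD (2 * m + 1) false]

/-- the configuration of the simulation for the configuration `a` -/
def embL (a : List Bool) : List Bool := a ++ (cpl a ++ [false, true])

/-- the predicate on `s, y` for the gates `τ` -/
def prL (τ : Fin 3) (V : List Bool → List Bool) (X : List Bool) (m : ℕ) (w : List Bool) : Bool :=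
  Tf τ (w.getD 0 false) (w.getD 1 false)
    (decide (V (pairBits X ((w.drop (m + 1)).take m)) = [true]))
    (decide (V (pairBits X (cpl ((w.drop (m + 1)).take m))) = [true]))

end Pool.Agent.H547U1
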