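import Pool.Agent.H547U1.Defs
import Pool.Agent.H547S1.Stm

/-!
# Statements of the tasks
-/

set_option autoImplicit false

namespace Pool.Agent.H547U1

open Pool.Agent.H547R6 Pool.Agent.H547R7 Pool.Agent.H547R8 Pool.Agent.NPC Pool.Agent.H547S1

/-- `EXP` is contained in all the classes -/
def U_EE : Prop := ∀ B : Set BFun, EXP ⊆ NEXPover B ∧ EXP ⊆ EXPSPACEover B

/-- `NEXP` over `B` is contained in `NEXP` -/
def U_NN : Prop := ∀ B : Set BFun, NEXPover B ⊆ NEXP

/-- monotone predicates -/
def U_NM : Prop := ∀ B : Set BFun, B ⊆ Mon → NEXPover B ⊆ EXP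

/-- affine predicates -/
def U_NA : Prop := ∀ B : Set BFun, B ⊆ Aff → NEXPover B ⊆ EXP

/-- correctness of repeated squaring -/
def U_EVC : Prop := ∀ (κ : Fin 3) (F s : List Bool → List Bool) (X : List Bool) (m k : ℕ),
  (∀ j, (⟨m + 1, fun a => step F X (m + 1) a j⟩ : BFun) ∈ cls κ) →
  runL κ F s X (m + 1) k = ((step F X (m + 1))^[2 ^ k] (vec (m + 1) (s X))) 0

/-- repeated squaring in polynomial time -/
def U_EVP : Prop := ∀ (κ : Fin 3) (F s : List Bool → List Bool) (e : Polynomial ℕ),
  PolyTime F → PolyTime s → ∃ V : List Bool → List Bool, PolyTime V ∧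
    ∀ X, V X = [runL κ F s X (len e X) X.length]

/-- the simulation in polynomial time -/
def U_HP : Prop := ∀ (τ : Fin 3) (F s : List Bool → List Bool) (e : Polynomial ℕ),
  PolyTime F → PolyTime s → ∃ F' s' : List Bool → List Bool, PolyTime F' ∧ PolyTime s' ∧
    (∀ X β, F' (pairBits X β) = stL τ F X (len e X) β) ∧
    ∀ X, s' X = embL (fit (len e X) (s X))

/-- circuits for the simulation -/
def U_HC : Prop := ∀ (B : Set BFun) (τ : Fin 3) (F : List Bool → List Bool) (e : Polynomial ℕ),
  Op3 B (Gm τ) → PolyTime F → ∃ q : Polynomial ℕ, ∀ (X : List Bool) (j : ℕ),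
    j < 2 * len e X + 2 → Computes B (2 * len e X + 2) (q.eval X.length)
      fun β => (stL τ F X (len e X) (List.ofFn β)).getD j false

/-- correctness of the simulation -/
def U_HI : Prop := ∀ (τ : Fin 3) (F F' : List Bool → List Bool) (X : List Bool) (m : ℕ),
  (∀ β, F' (pairBits X β) = stL τ F X m β) → ∀ (k : ℕ) (a : Fin m → Bool),
  (step F' X (2 * m + 2))^[k] (vec (2 * m + 2) (embL (List.ofFn a))) =
    vec (2 * m + 2) (embL (List.ofFn ((step F X m)^[k] a)))

/-- circuits for the predicate -/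
def U_HN : Prop := ∀ (B : Set BFun) (τ : Fin 3) (V : List Bool → List Bool) (e : Polynomial ℕ),
  Op3 B (Gt τ) → PolyTime V → ∃ q : Polynomial ℕ, ∀ X : List Bool,
    Computes B (len (e + 1) X + len (e + 1) X) (q.eval X.length)
      fun w => prL τ V X (len e X) (List.ofFn w)

/-- the predicate in polynomial time -/
def U_HQ : Prop := ∀ (τ : Fin 3) (V : List Bool → List Bool) (e : Polynomial ℕ), PolyTime V →
  ∃ V' : List Bool → List Bool, PolyTime V' ∧
    ∀ X w, V' (pairBits X w) = [prL τ V X (len e X) w]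

end Pool.Agent.H547U1
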